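import Pool.Agent.Helper155.Gil.Main

set_option autoImplicit false
open Finset Filter Topology

namespace Pool.Agent.Results.MP_c4ccc0_co.NoLimit

/-- The matrix `A_n` of the problem: the payoff to Blue when Red guesses `g` and Blue hides at `h`,
where `V m` is the value of the game on `m` consecutive integers. -/
noncomputable def payoff (V : ℕ → ℝ) (n g h : ℕ) : ℝ :=
  if h = g then 1 else if h < g then 1 + V (g - 1) else 1 + V (n - g)

/-- Mixed strategies on `{1, …, n}`: nonnegative weights whose sum over `{1, …, n}` is `1`. -/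
def MixedStrategy (n : ℕ) : Set (ℕ → ℝ) := {p | (∀ i, 0 ≤ p i) ∧ ∑ i ∈ Icc 1 n, p i = 1}

/-- `v` is the value of the `n × n` matrix game `A` (rows `g` chosen by Red, who minimises; columns
`h` chosen by Blue, who maximises): Red can hold Blue to at most `v`, Blue can secure at least `v`. -/
def IsGameValue (A : ℕ → ℕ → ℝ) (n : ℕ) (v : ℝ) : Prop :=
  (∃ p ∈ MixedStrategy n, ∀ h ∈ Icc 1 n, ∑ g ∈ Icc 1 n, p g * A g h ≤ v) ∧
  (∃ r ∈ MixedStrategy n, ∀ g ∈ Icc 1 n, v ≤ ∑ h ∈ Icc 1 n, r h * A g h)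

/-- `V` is the sequence of values of the guessing game: `V 0 = 0`, and for `n ≥ 1` the number `V n`
is the value of the matrix game `A_n` built from the earlier values. -/
def IsValueSequence (V : ℕ → ℝ) : Prop :=
  V 0 = 0 ∧ ∀ n, 1 ≤ n → IsGameValue (payoff V n) n (V n)

/-- The sequence `V` of values exists and is unique, and `V(n) - log₂ n` does not converge; it is
eventually within `10⁻⁸` of `-0.48758511`. -/
theorem result :
    (∃! V : ℕ → ℝ, IsValueSequence V) ∧
    ∀ V : ℕ → ℝ, IsValueSequence V →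
      (¬ ∃ c : ℝ, Tendsto (fun n : ℕ => V n - Real.logb 2 n) atTop (𝓝 c)) ∧
      ∀ᶠ n : ℕ in atTop, |V n - Real.logb 2 n - (-(48758511 / 10 ^ 8))| < 1 / 10 ^ 8 := by
  have hiff : ∀ V : ℕ → ℝ, IsValueSequence V ↔ Pool.Agent.Helper155.Gil.IsGilbert V := fun _ => Iff.rfl
  refine ⟨Pool.Agent.Helper155.Gil.MMain.exists_unique_gilbert, fun V hV => ⟨?_, ?_⟩⟩
  · exact Pool.Agent.Helper155.Gil.MMain.no_limit V ((hiff V).1 hV)
  · filter_upwards [Pool.Agent.Helper155.Gil.MMain.near V ((hiff V).1 hV)] with n hn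
    rw [sub_neg_eq_add]
    exact hn

end Pool.Agent.Results.MP_c4ccc0_co.NoLimit
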